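import Pool.Agent.H96.AL.Targets2

/-!
# DN: density of the hull outside an extremal subset
-/

open Topology Set Filter Real

namespace Pool.Agent.H87.AL

open Pool.Agent.H96.AL

theorem lip_continuous {X : Type} [MetricSpace X] {L : ℝ} {g : X → ℝ} (h : Lip L g) :
    Continuous g := by
  refine (LipschitzWith.of_dist_le_mul (K := Real.toNNReal L) fun x y => ?_).continuous
  rw [Real.dist_eq]
  refine (h x y).trans (mul_le_mul_of_nonneg_right ?_ dist_nonneg)
  exact Real.le_coe_toNNReal L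

theorem dn (hFL : T_FL) (hSD : T_SD) (hGD : T_GD) (hCE : T_CE) (hIN : T_IN) (hUN : T_UN)
    (hPE : T_PE) (hPD : T_PD) (hNE : T_NE) (hSB : T_SB) (hDS : T_DS) : T_DN := by
  intro X _ D hX x E hE hxE
  have hD1 := hX.one_le
  have hD0 : 0 ≤ D := by linarith
  obtain ⟨-, -, -, hhull⟩ := hUN X D hX
  rcases E.eq_empty_or_nonempty with h0 | hne
  · rw [h0, sdiff_empty]
    exact subset_closure
  have hcd : 0 ≤ cosh D := (cosh_pos D).le
  have hC : Extremal (closure (hull x \ E)) := by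
    refine hCE X D hX _ isClosed_closure fun a α hα hα0 t ht => ?_
    obtain ⟨hSC, hLip⟩ := hSD X D hX a
    have hGood := (hGD X D hX).1 a
    have hcont := lip_continuous hLip
    rw [Metric.mem_closure_iff]
    intro r hr
    obtain ⟨B, hB⟩ : ∃ B, B = exp (2 * cosh D * t) * (1 + 2 * (1 + D) * t) := ⟨_, rfl⟩
    have hB0 : 0 < B := by
      rw [hB]
      have : 0 ≤ 2 * (1 + D) * t := by positivity
      have := exp_pos (2 * cosh D * t)
      positivity
    obtain ⟨κ, hκ⟩ : ∃ κ, κ = min 1 (r ^ 2 / (2 * B)) := ⟨_, rfl⟩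
    have hκ0 : 0 < κ := by
      rw [hκ]
      exact lt_min one_pos (by positivity)
    have hκ1 : κ ≤ 1 := by rw [hκ]; exact min_le_left _ _
    have hκB : κ * B < r ^ 2 := by
      have h1 : κ ≤ r ^ 2 / (2 * B) := by rw [hκ]; exact min_le_right _ _
      calc κ * B ≤ r ^ 2 / (2 * B) * B := mul_le_mul_of_nonneg_right h1 hB0.le
        _ = r ^ 2 / 2 := by field_simp
        _ < r ^ 2 := by
          have : 0 < r ^ 2 := by positivity
          linarith
    obtain ⟨w, ⟨hwx, hwE⟩, hw⟩ := Metric.mem_closure_iff.1 hα0 κ hκ0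
    have hu : 0 < Metric.infDist w E :=
      (hE.1.notMem_iff_infDist_pos hne).1 hwE
    obtain ⟨μ, hμ⟩ : ∃ μ, μ = min κ (Metric.infDist w E) := ⟨_, rfl⟩
    have hμ0 : 0 < μ := by rw [hμ]; exact lt_min hκ0 hu
    have hμκ : μ ≤ κ := by rw [hμ]; exact min_le_left _ _
    have hμu : μ ≤ Metric.infDist w E := by rw [hμ]; exact min_le_right _ _
    obtain ⟨ε, hε⟩ : ∃ ε, ε = min 1 (Metric.infDist w E *
        exp (-((D + ((1 : ℕ) : ℝ)) * D + ((1 : ℕ) : ℝ) + 1) / μ)) := ⟨_, rfl⟩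
    have hε0 : 0 < ε := by rw [hε]; exact lt_min one_pos (mul_pos hu (exp_pos _))
    have hε1 : ε ≤ 1 := by rw [hε]; exact min_le_left _ _
    have hEE : ∀ i : Fin 1, Extremal ((fun _ : Fin 1 => E) i) ∧ ((fun _ : Fin 1 => E) i).Nonempty :=
      fun _ => ⟨hE, hne⟩
    obtain ⟨L', Λ', C', hL', hΛ', hC', hP⟩ := hPE X D hX (fun z => dist a z ^ 2 / 2) D (cosh D)
      (cosh D ^ 2) hD0 hcd (by positivity) hLip hSC hGood 1 (fun _ => E) hEE ε hε0 hε1
    obtain ⟨hP1, hP2, hP3⟩ := hP (fun _ => μ) (fun _ => ε)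
      (fun _ => ⟨hμ0.le, hμκ.trans hκ1, le_rfl, hε1⟩)
    obtain ⟨β, hβ0, hβ⟩ := hFL X D hX _ L' Λ' hL' hΛ' hP1 hP2 w
    have hβx : β t ∈ hull x := hIN X D hX _ L' Λ' C' L' hL' hΛ' hC' hP1 hP2 hP3 β hβ (hull x)
      (hhull x).1 (by rw [hβ0]; exact hwx) t ht
    have hβE : β t ∉ E := hNE X D hX (fun z => dist a z ^ 2 / 2) D L' hD0 hLip 1 (fun _ => E) hEE
      (fun _ => μ) (fun _ => ε) w (fun _ => ⟨hμ0.le, hμκ.trans hκ1, hμu, hε0, hε1⟩)
      (fun _ _ => by
        rw [hε]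
        exact min_le_right _ _) β hβ hβ0 t ht 0 hμ0
    refine ⟨β t, ⟨hβx, hβE⟩, ?_⟩
    have hpd := hPD X D hX (fun z => dist a z ^ 2 / 2) (cosh D) hcd hSC 1 (fun _ => E) hEE
      (fun _ => μ) (fun _ => ε) (fun _ => ⟨hμ0.le, hε0, hε1⟩)
    have hsb := hSB X D hX _ (fun z => dist a z ^ 2 / 2) (fun z => dist a z ^ 2 / 2)
      (fun z => dist a z ^ 2 / 2) L' D (cosh D) ((1 + D) * ∑ _i : Fin 1, μ) 0 0 hcd
      (mul_nonneg (by linarith) (Finset.sum_nonneg fun _ _ => hμ0.le)) le_rfl le_rfl hcont hcont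
      hpd (fun z y => by
        rw [sub_zero]
        exact hDS X (cosh D) _ hSC z y) (fun z => by simp) β α hβ hα t ht
    have hd0 : dist (β 0) (α 0) ^ 2 ≤ κ := by
      rw [hβ0, dist_comm]
      have h1 : dist (α 0) w ^ 2 ≤ κ ^ 2 := pow_le_pow_left₀ dist_nonneg hw.le 2
      have h2 : κ ^ 2 ≤ κ := by
        rw [pow_two]
        exact mul_le_of_le_one_right hκ0.le hκ1
      exact h1.trans h2
    have hsum : ∑ _i : Fin 1, μ = μ := by simp
    rw [hsum] at hsb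
    have h3 : dist (β 0) (α 0) ^ 2 + (4 * 0 + 2 * ((1 + D) * μ) + 2 * 0) * t ≤
        κ * (1 + 2 * (1 + D) * t) := by
      have h4 : (1 + D) * μ * t ≤ (1 + D) * κ * t := by
        refine mul_le_mul_of_nonneg_right (mul_le_mul_of_nonneg_left hμκ (by linarith)) ht
      nlinarith
    have h5 : dist (β t) (α t) ^ 2 ≤ κ * B := by
      refine hsb.trans ((mul_le_mul_of_nonneg_left h3 (exp_pos _).le).trans (le_of_eq ?_))
      rw [hB]
      ring
    rw [dist_comm]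
    exact lt_of_pow_lt_pow_left₀ 2 hr.le (h5.trans_lt hκB)
  refine (hhull x).2.2.1 _ hC ?_
  exact subset_closure ⟨(hhull x).2.1, hxE⟩

end Pool.Agent.H87.AL
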