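import Pool.Agent.H96.AL.Targets2

/-!
# SF: the family of strict gradient curves
-/

open Topology Set Filter Real

namespace Pool.Agent.H87.AL

open Pool.Agent.H96.AL

theorem lip_cont {X : Type} [MetricSpace X] {L : ℝ} {g : X → ℝ} (h : Lip L g) :
    Continuous g := by
  refine (LipschitzWith.of_dist_le_mul (K := Real.toNNReal L) fun x y => ?_).continuous
  rw [Real.dist_eq]
  refine (h x y).trans (mul_le_mul_of_nonneg_right ?_ dist_nonneg)
  exact Real.le_coe_toNNReal L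

theorem exists_lb {m : ℕ} (ε : Fin m → ℝ) (h : ∀ i, 0 < ε i) :
    ∃ e : ℝ, 0 < e ∧ e ≤ 1 ∧ ∀ i, e ≤ ε i := by
  rcases isEmpty_or_nonempty (Fin m) with h0 | h0
  · exact ⟨1, one_pos, le_rfl, fun i => (h0.false i).elim⟩
  · obtain ⟨i0, hi0⟩ := Finite.exists_min ε
    exact ⟨min 1 (ε i0), lt_min one_pos (h i0), min_le_left _ _,
      fun i => (min_le_right _ _).trans (hi0 i)⟩

section defs

variable {X : Type} [MetricSpace X] {m : ℕ}

/-- the weights -/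
noncomputable def mu (E : Fin m → Set X) (η : X → ℝ) (y : X) (i : Fin m) : ℝ :=
  η y * min 1 (Metric.infDist y (E i))

open Classical in
/-- the regularisation -/
noncomputable def ep (κ : ℝ) (E : Fin m → Set X) (η : X → ℝ) (y : X) (i : Fin m) : ℝ :=
  if y ∈ E i then 1 else min 1 (Metric.infDist y (E i)) * exp (-κ / mu E η y i)

variable {E : Fin m → Set X} {η : X → ℝ} {W : Set X}

theorem mu_nonneg {y : X} (h : 0 < η y) (i : Fin m) : 0 ≤ mu E η y i :=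
  mul_nonneg h.le (le_min zero_le_one Metric.infDist_nonneg)

theorem mu_le_eta {y : X} (h : 0 < η y) (i : Fin m) : mu E η y i ≤ η y :=
  mul_le_of_le_one_right h.le (min_le_left _ _)

theorem mu_le_one {y : X} (h : 0 < η y ∧ η y ≤ 1) (i : Fin m) : mu E η y i ≤ 1 :=
  (mu_le_eta h.1 i).trans h.2

theorem mu_le_infDist {y : X} (h : 0 < η y ∧ η y ≤ 1) (i : Fin m) :
    mu E η y i ≤ Metric.infDist y (E i) :=
  (mul_le_of_le_one_left (le_min zero_le_one Metric.infDist_nonneg) h.2).trans (min_le_right _ _)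

theorem mu_pos (hE : ∀ i, IsClosed (E i) ∧ (E i).Nonempty) {y : X} (h : 0 < η y) {i : Fin m}
    (hy : y ∉ E i) : 0 < mu E η y i :=
  mul_pos h (lt_min one_pos (((hE i).1.notMem_iff_infDist_pos (hE i).2).1 hy))

theorem mu_zero {y : X} {i : Fin m} (hy : y ∈ E i) : mu E η y i = 0 := by
  unfold mu
  rw [Metric.infDist_zero_of_mem hy, min_eq_right zero_le_one, mul_zero]

theorem ep_pos (κ : ℝ) (hE : ∀ i, IsClosed (E i) ∧ (E i).Nonempty) (y : X) (i : Fin m) :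
    0 < ep κ E η y i := by
  unfold ep
  split_ifs with hy
  · exact one_pos
  · exact mul_pos (lt_min one_pos (((hE i).1.notMem_iff_infDist_pos (hE i).2).1 hy)) (exp_pos _)

theorem ep_le_one {κ : ℝ} (hκ : 0 ≤ κ) {y : X} (h : 0 < η y) (i : Fin m) :
    ep κ E η y i ≤ 1 := by
  unfold ep
  split_ifs with hy
  · exact le_rfl
  · refine mul_le_one₀ (min_le_left _ _) (exp_pos _).le ?_
    rw [exp_le_one_iff]
    exact div_nonpos_of_nonpos_of_nonneg (by linarith) (mu_nonneg h i)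

theorem ep_le {κ : ℝ} {y : X} {i : Fin m} (hy : y ∉ E i) :
    ep κ E η y i ≤ Metric.infDist y (E i) * exp (-κ / mu E η y i) := by
  unfold ep
  rw [if_neg hy]
  exact mul_le_mul_of_nonneg_right (min_le_right _ _) (exp_pos _).le

theorem mu_tendsto (hη : ContinuousOn η W) {y0 : X} (hy0 : y0 ∈ W) (i : Fin m) :
    Tendsto (fun y => mu E η y i) (𝓝[W] y0) (𝓝 (mu E η y0 i)) := by
  unfold mu
  refine (hη y0 hy0).mul ?_
  have : Continuous fun y : X => min 1 (Metric.infDist y (E i)) :=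
    continuous_const.min (Metric.continuous_infDist_pt _)
  exact this.continuousAt.mono_left nhdsWithin_le_nhds

theorem ep_tendsto (κ : ℝ) (hE : ∀ i, IsClosed (E i) ∧ (E i).Nonempty) (hη : ContinuousOn η W)
    {y0 : X} (hy0 : y0 ∈ W) (h : 0 < η y0) {i : Fin m} (hi : y0 ∉ E i) :
    Tendsto (fun y => ep κ E η y i) (𝓝[W] y0) (𝓝 (ep κ E η y0 i)) := by
  have h1 : ∀ᶠ y in 𝓝[W] y0, y ∉ E i :=
    nhdsWithin_le_nhds ((hE i).1.isOpen_compl.mem_nhds hi)
  have h2 : Tendsto (fun y => min 1 (Metric.infDist y (E i)) * exp (-κ / mu E η y i)) (𝓝[W] y0)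
      (𝓝 (ep κ E η y0 i)) := by
    unfold ep
    rw [if_neg hi]
    have h3 : Continuous fun y : X => min 1 (Metric.infDist y (E i)) :=
      continuous_const.min (Metric.continuous_infDist_pt _)
    refine (h3.continuousAt.mono_left nhdsWithin_le_nhds).mul ?_
    refine (Real.continuous_exp.tendsto _).comp ?_
    exact tendsto_const_nhds.div (mu_tendsto hη hy0 i) (mu_pos hE h hi).ne'
  refine h2.congr' ?_
  filter_upwards [h1] with y hy
  unfold ep
  rw [if_neg hy]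

end defs

/-- the potentials which do not vanish at `y0` -/
noncomputable def mup {X : Type} [MetricSpace X] {m : ℕ} (E : Fin m → Set X) (η : X → ℝ) (y0 y : X)
    (i : Fin m) : ℝ := by
  classical exact if y0 ∈ E i then 0 else mu E η y i

/-- the potentials which vanish at `y0` -/
noncomputable def mus {X : Type} [MetricSpace X] {m : ℕ} (E : Fin m → Set X) (η : X → ℝ) (y0 y : X)
    (i : Fin m) : ℝ := by
  classical exact if y0 ∈ E i then mu E η y i else 0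

/-- the regularisation of the first group -/
noncomputable def epp {X : Type} [MetricSpace X] {m : ℕ} (κ : ℝ) (E : Fin m → Set X) (η : X → ℝ)
    (y0 y : X) (i : Fin m) : ℝ := by
  classical exact if y0 ∈ E i then 1 else ep κ E η y i

section main

variable {X : Type} [MetricSpace X] {m : ℕ} {E : Fin m → Set X} {η : X → ℝ} {W : Set X}

theorem pert_split (f : X → ℝ) (κ : ℝ) (y0 y : X) :
    pert (pert f E (mup E η y0 y) (epp κ E η y0 y)) E (mus E η y0 y) (ep κ E η y) =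
      pert f E (mu E η y) (ep κ E η y) := by
  funext z
  unfold pert
  rw [add_assoc, ← Finset.sum_add_distrib]
  congr 1
  refine Finset.sum_congr rfl fun i _ => ?_
  unfold mup epp mus
  by_cases h : y0 ∈ E i
  · simp [h]
  · simp [h]

theorem pert_zero (f : X → ℝ) (κ : ℝ) (y0 : X) :
    pert f E (mup E η y0 y0) (epp κ E η y0 y0) = pert f E (mu E η y0) (ep κ E η y0) := by
  funext z
  unfold pert
  congr 1
  refine Finset.sum_congr rfl fun i _ => ?_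
  unfold mup epp
  by_cases h : y0 ∈ E i
  · simp [h, mu_zero h]
  · simp [h]

theorem lp_tendsto {E : Set X} {l : Filter (X × X)} {e : X → ℝ} {e0 : ℝ} {z : X}
    (he0 : 0 < e0) (he : Tendsto (fun p : X × X => e p.1) l (𝓝 e0))
    (hz : Tendsto (fun p : X × X => p.2) l (𝓝 z)) :
    Tendsto (fun p : X × X => H96.AL.lp E (e p.1) p.2) l (𝓝 (H96.AL.lp E e0 z)) := by
  unfold H96.AL.lp
  have h1 : Tendsto (fun p : X × X => Metric.infDist p.2 E) l (𝓝 (Metric.infDist z E)) :=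
    ((Metric.continuous_infDist_pt E).tendsto z).comp hz
  have h2 : Tendsto (fun p : X × X => Metric.infDist p.2 E ^ 2 + e p.1 ^ 2) l
      (𝓝 (Metric.infDist z E ^ 2 + e0 ^ 2)) := (h1.pow 2).add (he.pow 2)
  exact (h2.log (by positivity)).div_const 2

/-- uniform convergence of the perturbed functions -/
theorem unif [CompactSpace X] (κ : ℝ) (hE : ∀ i, IsClosed (E i) ∧ (E i).Nonempty)
    (hη : ContinuousOn η W) (f : X → ℝ) {y0 : X} (hy0 : y0 ∈ W) (h0 : 0 < η y0) {δ : ℝ}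
    (hδ : 0 < δ) : ∀ᶠ y in 𝓝[W] y0, ∀ z : X,
      |pert f E (mup E η y0 y) (epp κ E η y0 y) z - pert f E (mu E η y0) (ep κ E η y0) z| ≤ δ := by
  have hkey : ∀ z ∈ (univ : Set X), ∀ᶠ p : X × X in 𝓝 (y0, z), p.1 ∈ W →
      |pert f E (mup E η y0 p.1) (epp κ E η y0 p.1) p.2 -
        pert f E (mu E η y0) (ep κ E η y0) p.2| ≤ δ := by
    intro z _
    have hfst : Tendsto (fun p : X × X => p.1) (𝓝[W] y0 ×ˢ 𝓝 z) (𝓝[W] y0) := tendsto_fst
    have hsnd : Tendsto (fun p : X × X => p.2) (𝓝[W] y0 ×ˢ 𝓝 z) (𝓝 z) := tendsto_snd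
    have hterm : ∀ i : Fin m, Tendsto (fun p : X × X => mup E η y0 p.1 i *
        H96.AL.lp (E i) (epp κ E η y0 p.1 i) p.2 - mu E η y0 i * H96.AL.lp (E i) (ep κ E η y0 i) p.2)
        (𝓝[W] y0 ×ˢ 𝓝 z) (𝓝 0) := by
      intro i
      by_cases hi : y0 ∈ E i
      · have : (fun p : X × X => mup E η y0 p.1 i *
            H96.AL.lp (E i) (epp κ E η y0 p.1 i) p.2 - mu E η y0 i * H96.AL.lp (E i) (ep κ E η y0 i) p.2) =
            fun _ => 0 := by
          funext p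
          unfold mup
          simp [hi, mu_zero hi]
        rw [this]
        exact tendsto_const_nhds
      · have h1 : Tendsto (fun p : X × X => mu E η p.1 i *
            H96.AL.lp (E i) (ep κ E η p.1 i) p.2 - mu E η y0 i * H96.AL.lp (E i) (ep κ E η y0 i) p.2)
            (𝓝[W] y0 ×ˢ 𝓝 z) (𝓝 (mu E η y0 i * H96.AL.lp (E i) (ep κ E η y0 i) z -
              mu E η y0 i * H96.AL.lp (E i) (ep κ E η y0 i) z)) := by
          refine (((mu_tendsto hη hy0 i).comp hfst).mul ?_).sub (tendsto_const_nhds.mul ?_)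
          · exact lp_tendsto (e := fun y => ep κ E η y i) (ep_pos κ hE y0 i)
              ((ep_tendsto κ hE hη hy0 h0 hi).comp hfst) hsnd
          · exact lp_tendsto (e := fun _ => ep κ E η y0 i) (ep_pos κ hE y0 i)
              tendsto_const_nhds hsnd
        rw [sub_self] at h1
        refine h1.congr fun p => ?_
        unfold mup epp
        simp [hi]
    have hsum : Tendsto (fun p : X × X => pert f E (mup E η y0 p.1) (epp κ E η y0 p.1) p.2 -
        pert f E (mu E η y0) (ep κ E η y0) p.2) (𝓝[W] y0 ×ˢ 𝓝 z) (𝓝 0) := by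
      have h1 : Tendsto (fun p : X × X => ∑ i : Fin m, (mup E η y0 p.1 i *
        H96.AL.lp (E i) (epp κ E η y0 p.1 i) p.2 - mu E η y0 i * H96.AL.lp (E i) (ep κ E η y0 i) p.2))
        (𝓝[W] y0 ×ˢ 𝓝 z) (𝓝 (∑ _i : Fin m, 0)) :=
        tendsto_finsetSum _ fun i _ => hterm i
      rw [Finset.sum_const_zero] at h1
      refine h1.congr fun p => ?_
      unfold pert
      rw [Finset.sum_sub_distrib]
      ring
    have habs := hsum.abs
    rw [abs_zero] at habs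
    have hev := habs.eventually (ge_mem_nhds hδ)
    have hle : 𝓝[W ×ˢ (univ : Set X)] (y0, z) = 𝓝[W] y0 ×ˢ 𝓝 z := by
      rw [nhdsWithin_prod_eq, nhdsWithin_univ]
    rw [← hle, eventually_nhdsWithin_iff] at hev
    filter_upwards [hev] with p hp hpW
    exact hp ⟨hpW, mem_univ _⟩
  have h2 := isCompact_univ.eventually_forall_of_forall_eventually
    (P := fun y z => y ∈ W → |pert f E (mup E η y0 y) (epp κ E η y0 y) z -
        pert f E (mu E η y0) (ep κ E η y0) z| ≤ δ) hkey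
  rw [eventually_nhdsWithin_iff]
  filter_upwards [h2] with y hy hyW z
  exact hy z (mem_univ z) hyW

theorem mup_bd {y0 y : X} (h : 0 < η y ∧ η y ≤ 1) (i : Fin m) :
    0 ≤ mup E η y0 y i ∧ mup E η y0 y i ≤ 1 := by
  unfold mup
  split_ifs
  · exact ⟨le_rfl, zero_le_one⟩
  · exact ⟨mu_nonneg h.1 i, mu_le_one h i⟩

theorem mus_nonneg {y0 y : X} (h : 0 < η y) (i : Fin m) : 0 ≤ mus E η y0 y i := by
  unfold mus
  split_ifs
  · exact mu_nonneg h i
  · exact le_rfl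

theorem mus_tendsto (hη : ContinuousOn η W) {y0 : X} (hy0 : y0 ∈ W) (i : Fin m) :
    Tendsto (fun y => mus E η y0 y i) (𝓝[W] y0) (𝓝 0) := by
  unfold mus
  by_cases hi : y0 ∈ E i
  · have h1 := mu_tendsto (E := E) hη hy0 i
    rw [mu_zero hi] at h1
    simpa [hi] using h1
  · simpa [hi] using (tendsto_const_nhds : Tendsto (fun _ : X => (0 : ℝ)) (𝓝[W] y0) (𝓝 0))

/-- a family of gradient curves of the perturbed functions -/
structure Fam (f : X → ℝ) (κ : ℝ) (E : Fin m → Set X) (η : X → ℝ) (W : Set X)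
    (H : X → ℝ → X) (Lf : X → ℝ) : Prop where
  zero : ∀ y ∈ W, H y 0 = y
  nn : ∀ y ∈ W, 0 ≤ Lf y
  flow : ∀ y ∈ W, IsFlow (Lf y) (pert f E (mu E η y) (ep κ E η y)) (H y)
  reg : ∀ y ∈ W, ∃ Λ C : ℝ, 0 ≤ Λ ∧ 0 ≤ C ∧ Lip (Lf y) (pert f E (mu E η y) (ep κ E η y)) ∧
    SC Λ (pert f E (mu E η y) (ep κ E η y)) ∧ Good C (pert f E (mu E η y) (ep κ E η y))

theorem exists_fam (hFL : T_FL) (hPE : T_PE) {D : ℝ} (hX : Sp X D) {f : X → ℝ} {L Λ C : ℝ}
    (hL : 0 ≤ L) (hΛ : 0 ≤ Λ) (hC : 0 ≤ C) (hf : Lip L f) (hfs : SC Λ f) (hfg : Good C f)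
    (hE : ∀ i, Extremal (E i) ∧ (E i).Nonempty) {κ : ℝ} (hκ : 0 ≤ κ)
    (hη : ∀ y ∈ W, 0 < η y ∧ η y ≤ 1) : ∃ (H : X → ℝ → X) (Lf : X → ℝ), Fam f κ E η W H Lf := by
  have hE' : ∀ i, IsClosed (E i) ∧ (E i).Nonempty := fun i => ⟨(hE i).1.1, (hE i).2⟩
  have key : ∀ y : X, ∃ (α : ℝ → X) (l : ℝ), y ∈ W → α 0 = y ∧ 0 ≤ l ∧
      IsFlow l (pert f E (mu E η y) (ep κ E η y)) α ∧ ∃ Λ C : ℝ, 0 ≤ Λ ∧ 0 ≤ C ∧
        Lip l (pert f E (mu E η y) (ep κ E η y)) ∧ SC Λ (pert f E (mu E η y) (ep κ E η y)) ∧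
        Good C (pert f E (mu E η y) (ep κ E η y)) := by
    intro y
    by_cases hy : y ∈ W
    · obtain ⟨e, he0, he1, he⟩ := exists_lb (ep κ E η y) (ep_pos κ hE' y)
      obtain ⟨L', Λ', C', h1, h2, h3, h4⟩ := hPE X D hX f L Λ C hL hΛ hC hf hfs hfg m E hE e he0 he1
      obtain ⟨h5, h6, h7⟩ := h4 (mu E η y) (ep κ E η y) fun i =>
        ⟨mu_nonneg (hη y hy).1 i, mu_le_one (hη y hy) i, he i, ep_le_one hκ (hη y hy).1 i⟩
      obtain ⟨α, hα0, hα⟩ := hFL X D hX _ L' Λ' h1 h2 h5 h6 y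
      exact ⟨α, L', fun _ => ⟨hα0, h1, hα, Λ', C', h2, h3, h5, h6, h7⟩⟩
    · exact ⟨fun _ => y, 0, fun h => (hy h).elim⟩
  choose H Lf h using key
  exact ⟨H, Lf, ⟨fun y hy => (h y hy).1, fun y hy => (h y hy).2.1,
    fun y hy => (h y hy).2.2.1, fun y hy => (h y hy).2.2.2⟩⟩

/-- nearby curves -/
theorem close (hPE : T_PE) (hPD : T_PD) (hSB : T_SB) (hDS : T_DS) {D : ℝ} (hX : Sp X D)
    {f : X → ℝ} {L Λ C : ℝ} (hL : 0 ≤ L) (hΛ : 0 ≤ Λ) (hC : 0 ≤ C) (hf : Lip L f) (hfs : SC Λ f)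
    (hfg : Good C f) (hE : ∀ i, Extremal (E i) ∧ (E i).Nonempty) {κ : ℝ} (hκ : 0 ≤ κ)
    (hηc : ContinuousOn η W) (hη : ∀ y ∈ W, 0 < η y ∧ η y ≤ 1) {H : X → ℝ → X} {Lf : X → ℝ}
    (hH : Fam f κ E η W H Lf) {y0 : X} (hy0 : y0 ∈ W) {T r : ℝ} (hT : 0 ≤ T) (hr : 0 < r) :
    ∀ᶠ y in 𝓝[W] y0, ∀ t ∈ Icc (0 : ℝ) T, dist (H y t) (H y0 t) < r := by
  have := hX.compact
  have hD1 := hX.one_le
  have hE' : ∀ i, IsClosed (E i) ∧ (E i).Nonempty := fun i => ⟨(hE i).1.1, (hE i).2⟩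
  obtain ⟨e, he0, he1, he⟩ := exists_lb (fun i => ep κ E η y0 i / 2)
    (fun i => half_pos (ep_pos κ hE' y0 i))
  have hev1 : ∀ᶠ y in 𝓝[W] y0, ∀ i, y0 ∉ E i → e ≤ ep κ E η y i := by
    rw [eventually_all]
    intro i
    by_cases hi : y0 ∈ E i
    · exact Eventually.of_forall fun y h => (h hi).elim
    · have h1 := ep_tendsto κ hE' hηc hy0 (hη y0 hy0).1 hi
      have h2 : ep κ E η y0 i / 2 < ep κ E η y0 i := half_lt_self (ep_pos κ hE' y0 i)
      filter_upwards [h1.eventually (lt_mem_nhds h2)] with y hy _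
      exact (he i).trans hy.le
  obtain ⟨L1, Λ1, C1, hL1, hΛ1, hC1, hP⟩ := hPE X D hX f L Λ C hL hΛ hC hf hfs hfg m E hE e he0 he1
  obtain ⟨B, hB⟩ : ∃ B, B = exp (2 * Λ1 * T) := ⟨_, rfl⟩
  have hB0 : 0 < B := by rw [hB]; exact exp_pos _
  obtain ⟨δ, hδ⟩ : ∃ δ, δ = r ^ 2 / (16 * B * (T + 1)) := ⟨_, rfl⟩
  have hδ0 : 0 < δ := by rw [hδ]; positivity
  have hδB : B * (4 * δ * T) ≤ r ^ 2 / 4 := by
    rw [hδ]
    have h1 : B * (4 * (r ^ 2 / (16 * B * (T + 1))) * T) = r ^ 2 / 4 * (T / (T + 1)) := by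
      field_simp
      ring
    rw [h1]
    refine mul_le_of_le_one_right (by positivity) ?_
    rw [div_le_one (by linarith)]
    linarith
  have hev2 := unif κ hE' hηc f hy0 (hη y0 hy0).1 hδ0
  have hev3 : ∀ᶠ y in 𝓝[W] y0, B * (dist y y0 ^ 2 + 2 * ((1 + D) * ∑ i, mus E η y0 y i) * T) <
      r ^ 2 / 2 := by
    have h1 : Tendsto (fun y => B * (dist y y0 ^ 2 + 2 * ((1 + D) * ∑ i, mus E η y0 y i) * T))
        (𝓝[W] y0) (𝓝 (B * (0 ^ 2 + 2 * ((1 + D) * ∑ _i : Fin m, 0) * T))) := by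
      refine tendsto_const_nhds.mul (((?_ : Tendsto (fun y => dist y y0) _ _).pow 2).add
        ((tendsto_const_nhds.mul (tendsto_const_nhds.mul ?_)).mul tendsto_const_nhds))
      · have h2 : Tendsto (fun y => dist y y0) (𝓝 y0) (𝓝 (dist y0 y0)) :=
          (continuous_id.dist continuous_const).tendsto y0
        rw [dist_self] at h2
        exact h2.mono_left nhdsWithin_le_nhds
      · exact tendsto_finsetSum _ fun i _ => mus_tendsto hηc hy0 i
    have h3 : B * (0 ^ 2 + 2 * ((1 + D) * ∑ _i : Fin m, (0 : ℝ)) * T) = 0 := by simp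
    rw [h3] at h1
    exact h1.eventually (gt_mem_nhds (by positivity))
  filter_upwards [hev1, hev2, hev3, self_mem_nhdsWithin] with y h1 h2 h3 hyW t ht
  have hηy := hη y hyW
  have hepp : ∀ y', (∀ i, y0 ∉ E i → e ≤ ep κ E η y' i) → 0 < η y' → ∀ i,
      e ≤ epp κ E η y0 y' i ∧ epp κ E η y0 y' i ≤ 1 := by
    intro y' h h' i
    unfold epp
    split_ifs with hi
    · exact ⟨he1, le_rfl⟩
    · exact ⟨h i hi, ep_le_one hκ h' i⟩
  have hPy := hP (mup E η y0 y) (epp κ E η y0 y) fun i =>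
    ⟨(mup_bd hηy i).1, (mup_bd hηy i).2, (hepp y h1 hηy.1 i).1, (hepp y h1 hηy.1 i).2⟩
  have h10 : ∀ i, y0 ∉ E i → e ≤ ep κ E η y0 i := fun i _ =>
    (he i).trans (half_le_self (ep_pos κ hE' y0 i).le)
  have hPy0 := hP (mup E η y0 y0) (epp κ E η y0 y0) fun i =>
    ⟨(mup_bd (hη y0 hy0) i).1, (mup_bd (hη y0 hy0) i).2, (hepp y0 h10 (hη y0 hy0).1 i).1,
      (hepp y0 h10 (hη y0 hy0).1 i).2⟩
  rw [pert_zero] at hPy0
  have hpd := hPD X D hX (pert f E (mup E η y0 y) (epp κ E η y0 y)) Λ1 hΛ1 hPy.2.1 m E hE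
    (mus E η y0 y) (ep κ E η y) fun i =>
      ⟨mus_nonneg hηy.1 i, ep_pos κ hE' y i, ep_le_one hκ hηy.1 i⟩
  rw [pert_split] at hpd
  have hc0 : 0 ≤ (1 + D) * ∑ i, mus E η y0 y i :=
    mul_nonneg (by linarith) (Finset.sum_nonneg fun i _ => mus_nonneg hηy.1 i)
  have hsb := hSB X D hX _ _ (pert f E (mup E η y0 y) (epp κ E η y0 y))
    (pert f E (mu E η y0) (ep κ E η y0)) (Lf y) (Lf y0) Λ1
    ((1 + D) * ∑ i, mus E η y0 y i) 0 δ hΛ1 hc0 le_rfl hδ0.le (lip_cont hPy.1) (lip_cont hPy0.1)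
    hpd (fun z w => by
      rw [sub_zero]
      exact hDS X Λ1 _ hPy0.2.1 z w) h2 (H y) (H y0) (hH.flow y hyW) (hH.flow y0 hy0) t ht.1
  rw [hH.zero y hyW, hH.zero y0 hy0] at hsb
  obtain ⟨c, hc⟩ : ∃ c, c = (1 + D) * ∑ i, mus E η y0 y i := ⟨_, rfl⟩
  rw [← hc] at hsb h3 hc0
  have h4 : exp (2 * Λ1 * t) ≤ B := by
    rw [hB, exp_le_exp]
    have := mul_le_mul_of_nonneg_left ht.2 hΛ1
    linarith
  have h5 : dist y y0 ^ 2 + (4 * δ + 2 * c + 2 * 0) * t ≤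
      dist y y0 ^ 2 + (4 * δ + 2 * c + 2 * 0) * T := by
    have := mul_le_mul_of_nonneg_left ht.2 (by positivity : (0 : ℝ) ≤ 4 * δ + 2 * c + 2 * 0)
    linarith
  have h6 : 0 ≤ dist y y0 ^ 2 + (4 * δ + 2 * c + 2 * 0) * T := by positivity
  have h7 : dist (H y t) (H y0 t) ^ 2 < r ^ 2 := by
    have ht0 := ht.1
    have h8 : 0 ≤ dist y y0 ^ 2 + (4 * δ + 2 * c + 2 * 0) * t := by positivity
    calc _ ≤ exp (2 * Λ1 * t) * (dist y y0 ^ 2 + (4 * δ + 2 * c + 2 * 0) * t) := hsb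
      _ ≤ B * (dist y y0 ^ 2 + (4 * δ + 2 * c + 2 * 0) * T) := mul_le_mul h4 h5 h8 hB0.le
      _ = B * (dist y y0 ^ 2 + 2 * c * T) + B * (4 * δ * T) := by ring
      _ < r ^ 2 / 2 + r ^ 2 / 4 := add_lt_add_of_lt_of_le h3 hδB
      _ ≤ r ^ 2 := by
        have : 0 ≤ r ^ 2 := by positivity
        linarith
  exact lt_of_pow_lt_pow_left₀ 2 hr.le h7

end main

theorem sf (hFL : T_FL) (hPE : T_PE) (hPD : T_PD) (hNE : T_NE) (hIN : T_IN) (hSB : T_SB)
    (hDS : T_DS) : T_SF := by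
  intro X _ D hX f L Λ C hL hΛ hC hf hfs hfg m E hE W η hηc hη
  have := hX.compact
  have hD1 := hX.one_le
  have hE' : ∀ i, IsClosed (E i) ∧ (E i).Nonempty := fun i => ⟨(hE i).1.1, (hE i).2⟩
  obtain ⟨κ, hκd⟩ : ∃ κ : ℝ, κ = (L + m) * D + m + 1 := ⟨_, rfl⟩
  have hκ : 0 ≤ κ := by
    rw [hκd]
    positivity
  obtain ⟨H, Lf, hH⟩ := exists_fam hFL hPE hX hL hΛ hC hf hfs hfg hE hκ hη
  refine ⟨H, hH.zero, ?_, ?_, ?_⟩
  · rintro ⟨y0, t0⟩ ⟨hy0, ht0⟩
    simp only [mem_Ici] at ht0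
    change Tendsto (fun p : X × ℝ => H p.1 p.2) (𝓝[W ×ˢ Ici (0 : ℝ)] (y0, t0)) (𝓝 (H y0 t0))
    rw [Metric.tendsto_nhds]
    intro r hr
    have h1 := close hPE hPD hSB hDS hX hL hΛ hC hf hfs hfg hE hκ hηc hη hH hy0
      (T := t0 + 1) (r := r / 2) (by linarith) (by positivity)
    have h2 : ∀ᶠ t in 𝓝[Ici (0 : ℝ)] t0, 0 ≤ t ∧ t ≤ t0 + 1 ∧ Lf y0 * |t - t0| < r / 2 := by
      have h3 : ∀ᶠ t in 𝓝 t0, t < t0 + 1 := gt_mem_nhds (by linarith)
      have h4 : Tendsto (fun t : ℝ => Lf y0 * |t - t0|) (𝓝 t0) (𝓝 (Lf y0 * |t0 - t0|)) := by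
        have : Continuous fun t : ℝ => Lf y0 * |t - t0| := by fun_prop
        exact this.tendsto t0
      rw [sub_self, abs_zero, mul_zero] at h4
      have h5 := h4.eventually (gt_mem_nhds (half_pos hr))
      filter_upwards [nhdsWithin_le_nhds h3, nhdsWithin_le_nhds h5, self_mem_nhdsWithin]
        with t a b c
      exact ⟨c, a.le, b⟩
    rw [nhdsWithin_prod_eq]
    filter_upwards [h1.prod_mk h2] with p hp
    obtain ⟨hp1, hp2, hp3, hp4⟩ := hp
    have h6 := hp1 p.2 ⟨hp2, hp3⟩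
    have h7 := (hH.flow y0 hy0).lip p.2 t0 hp2 ht0
    calc dist (H p.1 p.2) (H y0 t0) ≤ dist (H p.1 p.2) (H y0 p.2) + dist (H y0 p.2) (H y0 t0) :=
          dist_triangle _ _ _
      _ < r / 2 + r / 2 := add_lt_add h6 (h7.trans_lt hp4)
      _ = r := add_halves r
  · intro y hy t ht i
    obtain ⟨Λ', C', h1, h2, h3, h4, h5⟩ := hH.reg y hy
    constructor
    · intro hin
      by_contra hyE
      refine hNE X D hX f L (Lf y) hL hf m E hE (mu E η y) (ep κ E η y) y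
        (fun i => ⟨mu_nonneg (hη y hy).1 i, mu_le_one (hη y hy) i, mu_le_infDist (hη y hy) i,
          ep_pos κ hE' y i, ep_le_one hκ (hη y hy).1 i⟩) (fun i hi => ?_) (H y) (hH.flow y hy)
        (hH.zero y hy) t ht i (mu_pos hE' (hη y hy).1 hyE) hin
      have : y ∉ E i := fun h => hi.ne' (mu_zero h)
      rw [← hκd]
      exact ep_le this
    · intro hin
      exact hIN X D hX _ (Lf y) Λ' C' (Lf y) (hH.nn y hy) h1 h2 h3 h4 h5 (H y) (hH.flow y hy)
        (E i) (hE i).1 (by rw [hH.zero y hy]; exact hin) t ht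
  · intro y hy β hβ hβ0 t ht
    have hpd := hPD X D hX f Λ hΛ hfs m E hE (mu E η y) (ep κ E η y) fun i =>
      ⟨mu_nonneg (hη y hy).1 i, ep_pos κ hE' y i, ep_le_one hκ (hη y hy).1 i⟩
    have hsb := hSB X D hX _ f f f (Lf y) L Λ ((1 + D) * ∑ i, mu E η y i) 0 0 hΛ
      (mul_nonneg (by linarith) (Finset.sum_nonneg fun i _ => mu_nonneg (hη y hy).1 i)) le_rfl
      le_rfl (lip_cont hf) (lip_cont hf) hpd (fun z w => by
        rw [sub_zero]
        exact hDS X Λ _ hfs z w) (fun z => by simp) (H y) β (hH.flow y hy) hβ t ht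
    rw [hH.zero y hy, hβ0, dist_self] at hsb
    refine hsb.trans (mul_le_mul_of_nonneg_left ?_ (exp_pos _).le)
    have hs : ∑ i, mu E η y i ≤ m * η y := by
      calc ∑ i, mu E η y i ≤ ∑ _i : Fin m, η y :=
            Finset.sum_le_sum fun i _ => mu_le_eta (hη y hy).1 i
        _ = m * η y := by simp
    have h1 : (1 + D) * (∑ i, mu E η y i) * t ≤ (1 + D) * (m * η y) * t :=
      mul_le_mul_of_nonneg_right (mul_le_mul_of_nonneg_left hs (by linarith)) ht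
    calc (0 : ℝ) ^ 2 + (4 * 0 + 2 * ((1 + D) * ∑ i, mu E η y i) + 2 * 0) * t =
          2 * ((1 + D) * (∑ i, mu E η y i) * t) := by ring
      _ ≤ 2 * ((1 + D) * (m * η y) * t) := by linarith
      _ = 2 * (1 + D) * m * η y * t := by ring

end Pool.Agent.H87.AL
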